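import Pool.Agent.H37.CNS.Stmts

set_option autoImplicit false

namespace Pool.CND

open Finset

private theorem prd_gcd (c : ℚ) (a b : ℕ) (ha : ∃ z : ℤ, (a : ℚ) * c = z)
    (hb : ∃ z : ℤ, (b : ℚ) * c = z) : ∃ z : ℤ, ((Nat.gcd a b : ℕ) : ℚ) * c = z := by
  obtain ⟨x, hx⟩ := ha
  obtain ⟨y, hy⟩ := hb
  refine ⟨Nat.gcdA a b * x + Nat.gcdB a b * y, ?_⟩
  have h : ((Nat.gcd a b : ℕ) : ℤ) = a * Nat.gcdA a b + b * Nat.gcdB a b :=
    Nat.gcd_eq_gcd_ab a b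
  have h' : ((Nat.gcd a b : ℕ) : ℚ) =
      (a : ℚ) * (Nat.gcdA a b : ℤ) + (b : ℚ) * (Nat.gcdB a b : ℤ) := by
    exact_mod_cast h
  rw [h']
  push_cast
  rw [← hx, ← hy]
  ring

private theorem prd_card (hP : S_UPA) (p : ℕ) (k G : Type) [Field k] [Group G] [Finite G]
    (hp : p.Prime) (hc : CharP k p) (c : ℚ) (h : c ∈ Cond k G) :
    ∃ z : ℤ, ((Nat.card G : ℕ) : ℚ) * c = z := by
  obtain ⟨d, m, hm, he⟩ := Nat.exists_eq_pow_mul_and_not_dvd (n := Nat.card G)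
    (Nat.card_pos.ne') p hp.ne_one
  have hEA : EA p (⊥ : Subgroup G) := by
    refine ⟨fun a ha => ?_, fun a ha b hb => ?_⟩
    · rw [Subgroup.mem_bot] at ha
      rw [ha, one_pow]
    · rw [Subgroup.mem_bot] at ha hb
      rw [ha, hb]
  have h1 := hP p k G ⊥ d m hp hc hEA hm (by rw [Subgroup.card_bot, mul_one, he]) c h
  obtain ⟨z, hz⟩ := h1.1
  exact ⟨z, by rw [he]; exact hz⟩

private theorem prd_pos (hP : S_UPA) (p : ℕ) (k G : Type) [Field k] [Group G] [Finite G]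
    (hp : p.Prime) (hc : CharP k p) : 1 ≤ NG k G := by
  have hm : Nat.card G ∈ {N : ℕ | 1 ≤ N ∧
      {c : ℚ | c ∈ Cond k G ∧ ¬ ∃ z : ℤ, (N : ℚ) * c = z}.Finite} := by
    refine ⟨Nat.card_pos, ?_⟩
    have he : {c : ℚ | c ∈ Cond k G ∧ ¬ ∃ z : ℤ, ((Nat.card G : ℕ) : ℚ) * c = z} = ∅ := by
      rw [Set.eq_empty_iff_forall_notMem]
      rintro c ⟨h1, h2⟩
      exact h2 (prd_card hP p k G hp hc c h1)
    rw [he]
    exact Set.finite_empty
  exact (Nat.sInf_mem ⟨_, hm⟩ : NG k G ∈ _).1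

/-- one factor -/
private theorem prd_left (hL : S_PRL) (hA : S_ALL) (hP : S_UPA) (hD : S_NGD) (p : ℕ)
    (k G H : Type) [Field k] [IsAlgClosed k] [Group G] [Finite G] [Group H] [Finite H]
    (hp : p.Prime) (hc : CharP k p) (hH : HasCover k H) : NG k G ∣ NG k (G × H) := by
  refine hD k G _ (prd_pos hP p k (G × H) hp hc) ?_
  intro c h
  by_cases h0 : c = 0
  · exact ⟨0, by rw [h0]; simp⟩
  obtain ⟨m, hm1, hm2, hm3⟩ := hL p k G H c hp hc h h0 hH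
  obtain ⟨z, hz⟩ := hA p k (G × H) _ hp hc hm3
  obtain ⟨w, hw⟩ := prd_card hP p k G hp hc c h
  have hg := prd_gcd c (NG k (G × H) * m) (NG k (G × H) * Nat.card G)
    ⟨z, by push_cast; rw [mul_assoc]; exact hz⟩
    ⟨NG k (G × H) * w, by push_cast; rw [mul_assoc, hw]⟩
  have hcop : Nat.Coprime m (Nat.card G) := by
    have h1 : Nat.card G ∣ p * Nat.card G * Nat.card H :=
      ⟨p * Nat.card H, by ring⟩
    exact Nat.Coprime.coprime_dvd_right h1 hm2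
  rw [Nat.gcd_mul_left, hcop.gcd_eq_one, mul_one] at hg
  exact hg

theorem prd_thm (hL : S_PRL) (hU : S_PRU) (hA : S_ALL) (hP : S_UPA) (hD : S_NGD)
    (hC : S_CNG) : S_PRD := by
  intro p k G H _ _ _ _ _ _ hp hc hG hH
  apply Nat.dvd_antisymm
  · have h1 := prd_pos hP p k G hp hc
    have h2 := prd_pos hP p k H hp hc
    refine hD k (G × H) _ (Nat.lcm_pos h1 h2) ?_
    intro c h
    by_cases h0 : c = 0
    · exact ⟨0, by rw [h0]; simp⟩
    have hinf : (MonoidHom.fst G H).ker ⊓ (MonoidHom.snd G H).ker = ⊥ := by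
      rw [eq_bot_iff]
      rintro ⟨a, b⟩ ⟨ha, hb⟩
      have ha' : a = 1 := ha
      have hb' : b = 1 := hb
      rw [Subgroup.mem_bot, ha', hb']
      rfl
    have key : ∀ (Q : Type) [Group Q] [Finite Q] (N : ℕ), NG k Q = N → c ∈ Cond k Q →
        N ∣ Nat.lcm (NG k G) (NG k H) →
        ∃ z : ℤ, ((Nat.lcm (NG k G) (NG k H) : ℕ) : ℚ) * c = z := by
      intro Q _ _ N hN hQ hdvd
      obtain ⟨z, hz⟩ := hA p k Q c hp hc hQ
      obtain ⟨q, hq⟩ := hdvd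
      refine ⟨q * z, ?_⟩
      rw [hq]
      push_cast
      rw [← hz, ← hN]
      ring
    rcases hU p k (G × H) (MonoidHom.fst G H).ker (MonoidHom.snd G H).ker c hp hc hinf h h0
      with h3 | h3
    · refine key _ (NG k G) (hC k _ G ⟨?_⟩) h3 (Nat.dvd_lcm_left _ _)
      exact QuotientGroup.quotientKerEquivOfSurjective (MonoidHom.fst G H) Prod.fst_surjective
    · refine key _ (NG k H) (hC k _ H ⟨?_⟩) h3 (Nat.dvd_lcm_right _ _)
      exact QuotientGroup.quotientKerEquivOfSurjective (MonoidHom.snd G H) Prod.snd_surjective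
  · refine Nat.lcm_dvd (prd_left hL hA hP hD p k G H hp hc hH) ?_
    rw [hC k (G × H) (H × G) ⟨MulEquiv.prodComm⟩]
    exact prd_left hL hA hP hD p k H G hp hc hG

end Pool.CND
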