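import Pool.Agent.H37.CNS.Stmts

set_option autoImplicit false

namespace Pool.CND

theorem pze_thm (h7 : S_PZ7) (h3 : S_OM3) (hD : S_NGD) : S_PZE := by
  intro p k G _ _ _ _ _ hp h2 hcard
  refine ⟨?_, ?_⟩
  · rintro ⟨x, hx, hxc⟩
    exact h3 p k G hp h2 hcard x hx hxc
  · intro hpow hcomm
    constructor
    · intro h1 x hx
      by_contra hxc
      have h := h3 p k G hp h2 hcard x hx hxc
      rw [h1] at h
      exact hp.one_lt.ne' (Nat.dvd_one.1 h)
    · intro hom
      have hdvd : NG k G ∣ 1 := by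
        refine hD k G 1 le_rfl ?_
        rintro c ⟨L, fL, aL, ρ, t, hc, P, hP, hcon⟩
        obtain ⟨n, hn⟩ := h7 p k L G ρ t P c hp h2 ⟨hcard, hpow, hcomm, hom⟩ hc hP hcon
        exact ⟨n, by rw [hn]; simp⟩
      exact Nat.dvd_one.1 hdvd

end Pool.CND
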